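import Mathlib

/-!
Definitions for the statement of the counterexample: homogeneous and transitive permutation
groups, linear and circular orders preserved or reversed by a group.
-/

namespace Pool.Agent.H13.Boron

/-- `G` is transitive on the `t`-element subsets of `X`. -/
def IsHomogeneous {X : Type} (G : Subgroup (Equiv.Perm X)) (t : ℕ) : Prop :=
  ∀ A B : Finset X, A.card = t → B.card = t → ∃ g ∈ G, g '' (A : Set X) = (B : Set X)

/-- `G` is transitive on the ordered `t`-tuples of distinct elements of `X`. -/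
def IsTransitive {X : Type} (G : Subgroup (Equiv.Perm X)) (t : ℕ) : Prop :=
  ∀ a b : Fin t → X, Function.Injective a → Function.Injective b →
    ∃ g ∈ G, ∀ i, g (a i) = b i

/-- Strict linear orders. -/
def IsLinear {X : Type} (R : X → X → Prop) : Prop :=
  (∀ x, ¬ R x x) ∧ (∀ x y z, R x y → R y z → R x z) ∧ (∀ x y, x ≠ y → R x y ∨ R y x)

/-- Circular orders. -/
def IsCircular {X : Type} (C : X → X → X → Prop) : Prop :=
  (∀ x y z, C x y z → C y z x) ∧ (∀ x y z, C x y z → ¬ C z y x) ∧
  (∀ x y z w, C x y z → C x z w → C x y w) ∧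
  (∀ x y z, x ≠ y → y ≠ z → x ≠ z → C x y z ∨ C z y x)

/-- Every element of `G` preserves the relation `R` or maps it to its converse. -/
def PreservesPairLin {X : Type} (G : Subgroup (Equiv.Perm X)) (R : X → X → Prop) : Prop :=
  ∀ g ∈ G, (∀ x y, R (g x) (g y) ↔ R x y) ∨ (∀ x y, R (g x) (g y) ↔ R y x)

/-- Every element of `G` preserves the relation `C` or maps it to its converse. -/
def PreservesPairCirc {X : Type} (G : Subgroup (Equiv.Perm X)) (C : X → X → X → Prop) : Prop :=
  ∀ g ∈ G, (∀ x y z, C (g x) (g y) (g z) ↔ C x y z) ∨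
    (∀ x y z, C (g x) (g y) (g z) ↔ C z y x)

end Pool.Agent.H13.Boron
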