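import Pool.Agent.H13.Boron.Main

/-!
5-homogeneity, and no invariant orders.
-/

namespace Pool.Agent.H13.Boron

open Finset

/-- the standard five points -/
def A0 : Set Y := {none, some ∅, some {1}, some {0}, some {-1}}

/-- sets that can be moved to the standard five points -/
def Good (A : Set Y) : Prop := ∃ g ∈ G, g '' A = A0

theorem Good.of_image {A : Set Y} {g : Equiv.Perm Y} (hg : g ∈ G) (h : Good (g '' A)) :
    Good A := by
  obtain ⟨k, hk, e⟩ := h
  refine ⟨k * g, G.mul_mem hk hg, ?_⟩
  rw [← e, Equiv.Perm.coe_mul, Set.image_comp]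

/-- three different tops -/
theorem L1 {b c e : V} (hb : b.Nonempty) (hc : c.Nonempty) (he : e.Nonempty)
    (h1 : top e < top c) (h2 : top c < top b) :
    Good {none, some ∅, some b, some c, some e} := by
  let φ := kink (top c) (top b - top c) (top c - top e) (by linarith) (by linarith)
  have φb : φ (top b) = 1 := by
    show kink _ _ _ _ _ _ = _
    rw [kink_apply, if_pos h2.le, div_self (by linarith)]
  have φc : φ (top c) = 0 := by
    show kink _ _ _ _ _ _ = _
    rw [kink_apply, if_pos le_rfl]; simp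
  have φe : φ (top e) = -1 := by
    show kink _ _ _ _ _ _ = _
    rw [kink_apply, if_neg (not_le.mpr h1), div_eq_iff (by linarith)]; ring
  obtain ⟨nb, tb⟩ := reix_top φ b hb
  obtain ⟨nc, tc⟩ := reix_top φ c hc
  obtain ⟨ne, te⟩ := reix_top φ e he
  rw [φb] at tb
  rw [φc] at tc
  rw [φe] at te
  obtain ⟨g1, hg1, a1, a2, a3, a4⟩ := to_single _ nb
  obtain ⟨g2, hg2, b1, b2, b3, b4⟩ := to_single _ nc
  obtain ⟨g3, hg3, c1, c2, c3, c4⟩ := to_single _ ne
  refine ⟨g3 * (g2 * (g1 * fixInf (reix φ))),
    G.mul_mem hg3 (G.mul_mem hg2 (G.mul_mem hg1 (reix_mem φ))), ?_⟩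
  simp only [Set.image_insert_eq, Set.image_singleton, Equiv.Perm.mul_apply, fixInf_none,
    fixInf_some, reix_empty]
  rw [a1, b1, c1, a2, b2, c2, a3, tb, a4 _ nc (by rw [tc, tb]; norm_num),
    a4 _ ne (by rw [te, tb]; norm_num), b3, tc, b4 _ ne (by rw [te, tc]; norm_num), c3, te,
    b4 {1} (singleton_nonempty _) (by rw [top_singleton, tc]; norm_num),
    c4 {1} (singleton_nonempty _) (by rw [top_singleton, te]; norm_num),
    c4 {0} (singleton_nonempty _) (by rw [top_singleton, te]; norm_num)]
  rfl

theorem perm1 (x y a b c : Y) : ({x, y, a, b, c} : Set Y) = {x, y, b, a, c} := by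
  rw [Set.insert_comm a b]

theorem perm2 (x y a b c : Y) : ({x, y, a, b, c} : Set Y) = {x, y, a, c, b} := by
  rw [Set.pair_comm b c]

theorem trans_image (b c e : V) : fixInf (trans b) '' {none, some ∅, some b, some c, some e} =
    {none, some ∅, some b, some (symmDiff c b), some (symmDiff e b)} := by
  simp only [Set.image_insert_eq, Set.image_singleton, fixInf_none, fixInf_some, trans_apply,
    empty_sd, symmDiff_self]
  rw [Set.insert_comm (some b)]
  rfl

/-- two equal tops, the third larger -/
theorem L2b {b c e : V} (hb : b.Nonempty) (hc : c.Nonempty) (he : e.Nonempty)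
    (h1 : top b = top c) (h2 : top c < top e) (hne : b ≠ c) :
    Good {none, some ∅, some b, some c, some e} := by
  apply Good.of_image (trans_mem b)
  rw [trans_image, perm2, perm1]
  have t1 : top (symmDiff e b) = top e := top_sd_lt he (below_of_lt (by rw [h1]; exact h2))
  have t2 : top (symmDiff c b) < top b := by
    rw [h1]; exact top_sd_lt_of_eq hc hb h1.symm hne.symm
  refine L1 (sd_nonempty ?_) hb (sd_nonempty hne.symm) t2 (by rw [t1, h1]; exact h2)
  rintro rfl
  rw [h1] at h2
  exact lt_irrefl _ h2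

/-- all tops equal -/
theorem L3 {b c e : V} (hb : b.Nonempty) (hc : c.Nonempty) (he : e.Nonempty)
    (h1 : top b = top c) (h2 : top b = top e) (hbc : b ≠ c) (hbe : b ≠ e) (hce : c ≠ e) :
    Good {none, some ∅, some b, some c, some e} := by
  apply Good.of_image (trans_mem b)
  rw [trans_image]
  have t1 : top (symmDiff c b) < top b := by
    rw [h1]; exact top_sd_lt_of_eq hc hb h1.symm hbc.symm
  have t2 : top (symmDiff e b) < top b := by
    rw [h2]; exact top_sd_lt_of_eq he hb h2.symm hbe.symm
  rcases lt_trichotomy (top (symmDiff c b)) (top (symmDiff e b)) with h | h | h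
  · rw [perm2]
    exact L1 hb (sd_nonempty hbe.symm) (sd_nonempty hbc.symm) h t2
  · rw [perm1, perm2]
    refine L2b (sd_nonempty hbc.symm) (sd_nonempty hbe.symm) hb h t2 ?_
    intro h3
    exact hce (symmDiff_left_injective b h3)
  · exact L1 hb (sd_nonempty hbc.symm) (sd_nonempty hbe.symm) h t1

/-- two equal tops, the third smaller -/
theorem L2a {b c e : V} (hb : b.Nonempty) (hc : c.Nonempty) (he : e.Nonempty)
    (h1 : top b = top c) (h2 : top e < top c) (hne : b ≠ c) :
    Good {none, some ∅, some b, some c, some e} := by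
  apply Good.of_image ι_mem
  have : (ι '' {none, some ∅, some b, some c, some e} : Set Y) =
      {none, some ∅, some (flip b), some (flip c), some (flip e)} := by
    simp only [Set.image_insert_eq, Set.image_singleton]
    rw [ι_none, ι_empty, ι_some hb, ι_some hc, ι_some he, Set.insert_comm]
  rw [this]
  refine L2b (flip_nonempty hb) (flip_nonempty hc) (flip_nonempty he) ?_ ?_ ?_
  · rw [top_flip hb, top_flip hc, h1]
  · rw [top_flip hc, top_flip he]; linarith
  · intro h
    apply hne
    rw [← flip_flip hb, h, flip_flip hc]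

theorem good_three {b c e : V} (hb : b.Nonempty) (hc : c.Nonempty) (he : e.Nonempty)
    (hbc : b ≠ c) (hbe : b ≠ e) (hce : c ≠ e) :
    Good {none, some ∅, some b, some c, some e} := by
  rcases lt_trichotomy (top b) (top c) with h1 | h1 | h1
  · rcases lt_trichotomy (top c) (top e) with h2 | h2 | h2
    · -- b < c < e
      rw [perm1, perm2, perm1]
      exact L1 he hc hb h1 h2
    · -- b < c = e
      rw [perm1, perm2]
      exact L2a hc he hb h2 (by rw [← h2]; exact h1) hce
    · -- e < c, b < c
      rw [perm1]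
      rcases lt_trichotomy (top b) (top e) with h3 | h3 | h3
      · rw [perm2]; exact L1 hc he hb h3 h2
      · rw [perm1, perm2]
        exact L2b hb he hc h3 h2 hbe
      · exact L1 hc hb he h3 h1
  · rcases lt_trichotomy (top c) (top e) with h2 | h2 | h2
    · exact L2b hb hc he h1 h2 hbc
    · exact L3 hb hc he h1 (h1.trans h2) hbc hbe hce
    · exact L2a hb hc he h1 h2 hbc
  · rcases lt_trichotomy (top b) (top e) with h2 | h2 | h2
    · -- c < b < e
      rw [perm2, perm1]
      exact L1 he hb hc h1 h2
    · -- c < b = e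
      rw [perm2]
      exact L2a hb he hc h2 (by rw [← h2]; exact h1) hbe
    · -- c < b, e < b
      rcases lt_trichotomy (top c) (top e) with h3 | h3 | h3
      · rw [perm2]; exact L1 hb he hc h3 h2
      · rw [perm1, perm2]
        exact L2b hc he hb h3 h2 hce
      · exact L1 hb hc he h3 h1

theorem good_five (A : Finset Y) (hA : A.card = 5) : Good (A : Set Y) := by
  let f := (A.equivFinOfCardEq hA).symm
  have hf : ∀ i j, i ≠ j → (f i : Y) ≠ f j := fun i j h e => h (f.injective (Subtype.ext e))
  have hA' : (A : Set Y) = {(f 0 : Y), (f 1 : Y), (f 2 : Y), (f 3 : Y), (f 4 : Y)} := by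
    ext x
    simp only [Finset.mem_coe, Set.mem_insert_iff, Set.mem_singleton_iff]
    constructor
    · intro hx
      obtain ⟨i, hi⟩ := f.surjective ⟨x, hx⟩
      have : x = f i := by rw [hi]
      fin_cases i <;> simp_all
    · rintro (h | h | h | h | h) <;> rw [h] <;> exact (f _).2
  obtain ⟨g, hg, g0, g1⟩ := to_two (hf 0 1 (by decide))
  have hn : ∀ i : Fin 5, i ≠ 0 → ∃ b : V, g (f i) = some b := fun i hi =>
    Option.ne_none_iff_exists'.mp (fun e => hf i 0 hi (g.injective (e.trans g0.symm)))
  obtain ⟨b, hb⟩ := hn 2 (by decide)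
  obtain ⟨c, hc⟩ := hn 3 (by decide)
  obtain ⟨e, he⟩ := hn 4 (by decide)
  have nz : ∀ (i : Fin 5) (d : V), i ≠ 1 → g (f i) = some d → d.Nonempty := by
    intro i d hi hd
    rw [nonempty_iff_ne_empty]
    rintro rfl
    exact hf i 1 hi (g.injective (hd.trans g1.symm))
  have nn : ∀ (i j : Fin 5) (d d' : V), i ≠ j → g (f i) = some d → g (f j) = some d' → d ≠ d' := by
    rintro i j d d' hij hd hd' rfl
    exact hf i j hij (g.injective (hd.trans hd'.symm))
  apply Good.of_image hg
  rw [hA']
  simp only [Set.image_insert_eq, Set.image_singleton]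
  rw [g0, g1, hb, hc, he]
  exact good_three (nz 2 b (by decide) hb) (nz 3 c (by decide) hc) (nz 4 e (by decide) he)
    (nn 2 3 b c (by decide) hb hc) (nn 2 4 b e (by decide) hb he) (nn 3 4 c e (by decide) hc he)

/-- `G` is 5-homogeneous. -/
theorem G_hom : IsHomogeneous G 5 := by
  intro A B hA hB
  obtain ⟨g, hg, e1⟩ := good_five A hA
  obtain ⟨h, hh, e2⟩ := good_five B hB
  refine ⟨h⁻¹ * g, G.mul_mem (G.inv_mem hh) hg, ?_⟩
  rw [Equiv.Perm.coe_mul, Set.image_comp, e1, ← e2, ← Set.image_comp, ← Equiv.Perm.coe_mul]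
  simp

/-- no linear order is preserved up to reversal -/
theorem no_linear (R : Y → Y → Prop) (hR : IsLinear R) (hp : PreservesPairLin G R) : False := by
  obtain ⟨irr, tr, tot⟩ := hR
  have asym : ∀ x y, R x y → ¬ R y x := fun x y h1 h2 => irr x (tr _ _ _ h1 h2)
  -- three increasing points
  obtain ⟨x, y, z, hxy, hyz⟩ : ∃ x y z : Y, R x y ∧ R y z := by
    have e1 : (none : Y) ≠ some ∅ := by simp
    have e2 : (none : Y) ≠ some {0} := by simp
    have e3 : (some ∅ : Y) ≠ some {0} := by
      intro h
      exact absurd (Option.some.inj h) (by decide)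
    rcases tot _ _ e1 with h1 | h1 <;> rcases tot _ _ e3 with h2 | h2
    · exact ⟨_, _, _, h1, h2⟩
    · rcases tot _ _ e2 with h3 | h3
      · exact ⟨_, _, _, h3, h2⟩
      · exact ⟨_, _, _, h3, h1⟩
    · rcases tot _ _ e2 with h3 | h3
      · exact ⟨_, _, _, h1, h3⟩
      · exact ⟨_, _, _, h2, h3⟩
    · exact ⟨_, _, _, h2, h1⟩
  have hxz := tr _ _ _ hxy hyz
  have n1 : x ≠ y := fun e => irr x (by rw [← e] at hxy; exact hxy)
  have n2 : y ≠ z := fun e => irr y (by rw [← e] at hyz; exact hyz)
  have n3 : x ≠ z := fun e => irr x (by rw [← e] at hxz; exact hxz)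
  obtain ⟨g, hg, h⟩ := G_trans ![x, y, z] ![x, z, y]
    (by intro i j hij; fin_cases i <;> fin_cases j <;> simp_all)
    (by intro i j hij; fin_cases i <;> fin_cases j <;> simp_all)
  have gx : g x = x := h 0
  have gy : g y = z := h 1
  have gz : g z = y := h 2
  rcases hp g hg with k | k
  · have := (k y z).mpr hyz
    rw [gy, gz] at this
    exact asym _ _ this hyz
  · have := (k y x).mpr hxy
    rw [gy, gx] at this
    exact asym _ _ this hxz

/-- no circular order is preserved up to reversal -/
theorem no_circular (C : Y → Y → Y → Prop) (hC : IsCircular C) (hp : PreservesPairCirc G C) :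
    False := by
  obtain ⟨cyc, asym, -, tot⟩ := hC
  have ht : ∀ x ∈ ({0} : V), x < 1 := by simp
  let g := fixInf (ltrans 1 {0} ht)
  have hg : g ∈ G := ltrans_mem _ _ ht
  have g0 : g none = none := fixInf_none _
  have g1 : g (some ∅) = some ∅ := by
    show fixInf _ _ = _
    rw [fixInf_some, ltrans_neg ht (by simp)]
  have g2 : g (some {2}) = some {2} := by
    show fixInf _ _ = _
    rw [fixInf_some, ltrans_neg ht (by simp)]
  have e3 : symmDiff ({1} : V) {0} = {1, 0} := by
    ext x
    simp only [mem_symmDiff, mem_singleton, mem_insert]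
    constructor
    · rintro (⟨h, _⟩ | ⟨h, _⟩)
      · exact Or.inl h
      · exact Or.inr h
    · rintro (h | h)
      · left; exact ⟨h, by rw [h]; norm_num⟩
      · right; exact ⟨h, by rw [h]; norm_num⟩
  have g3 : g (some {1}) = some {1, 0} := by
    show fixInf _ _ = _
    rw [fixInf_some, ltrans_pos ht (by simp), e3]
  have g4 : g (some {1, 0}) = some {1} := by
    show fixInf _ _ = _
    rw [fixInf_some, ltrans_pos ht (by simp), ← e3, symmDiff_assoc, symmDiff_self]
    simp
  have n1 : (none : Y) ≠ some ∅ := by simp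
  have n2 : (some ∅ : Y) ≠ some {2} := by
    intro h; exact absurd (Option.some.inj h) (by decide)
  have n3 : (none : Y) ≠ some {2} := by simp
  have n4 : (some {1} : Y) ≠ some {1, 0} := by
    intro h; exact absurd (Option.some.inj h) (by decide)
  -- `g` does not reverse `C`
  have pres : ∀ x y z, C (g x) (g y) (g z) ↔ C x y z := by
    rcases hp g hg with k | k
    · exact k
    · exfalso
      have k1 := k none (some ∅) (some {2})
      rw [g0, g1, g2] at k1
      rcases tot _ _ _ n1 n2 n3 with h | h
      · exact asym _ _ _ h (k1.mp h)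
      · exact asym _ _ _ h (k1.mpr h)
  have k2 := pres none (some {1}) (some {1, 0})
  rw [g0, g3, g4] at k2
  rcases tot none (some {1}) (some {1, 0}) (by simp) n4 (by simp) with h | h
  · exact asym _ _ _ h (cyc _ _ _ (k2.mpr h))
  · have h' : C none (some {1, 0}) (some {1}) := cyc _ _ _ (cyc _ _ _ h)
    exact asym _ _ _ (k2.mp h') h

theorem main : ∃ (X : Type) (_ : Infinite X) (_ : Countable X) (G : Subgroup (Equiv.Perm X)),
    IsHomogeneous G 5 ∧ IsTransitive G 3 ∧ ¬ IsTransitive G 4 ∧
    (¬ ∃ R : X → X → Prop, IsLinear R ∧ PreservesPairLin G R) ∧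
    (¬ ∃ C : X → X → X → Prop, IsCircular C ∧ PreservesPairCirc G C) :=
  ⟨Y, inferInstance, inferInstance, G, G_hom, G_trans, G_not_trans,
    fun ⟨R, h1, h2⟩ => no_linear R h1 h2, fun ⟨C, h1, h2⟩ => no_circular C h1 h2⟩

end Pool.Agent.H13.Boron
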