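import Pool.Agent.H13.Boron.Maps

/-!
The inversion, and the transitivity properties of the group.
-/

namespace Pool.Agent.H13.Boron

open Finset

/-- inversion on finite points -/
noncomputable def flip (a : V) : V := shift (-2 * top a) a

theorem top_flip {a : V} (h : a.Nonempty) : top (flip a) = - top a := by
  unfold flip; rw [top_shift h]; ring

theorem flip_nonempty {a : V} (h : a.Nonempty) : (flip a).Nonempty := shift_nonempty h

theorem flip_flip {a : V} (h : a.Nonempty) : flip (flip a) = a := by
  have h1 : flip (flip a) = shift (-2 * top (flip a)) (shift (-2 * top a) a) := rfl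
  rw [h1, top_flip h, shift_shift]
  rw [show -2 * -top a + -2 * top a = 0 by ring, shift_zero]

/-- the inversion -/
noncomputable def invFun : Y → Y
  | none => some ∅
  | some a => if a = ∅ then none else some (flip a)

theorem invFun_none : invFun none = some ∅ := rfl
theorem invFun_empty : invFun (some ∅) = none := by simp [invFun]
theorem invFun_some {a : V} (h : a.Nonempty) : invFun (some a) = some (flip a) := by
  show (if a = ∅ then none else some (flip a)) = _
  rw [if_neg (nonempty_iff_ne_empty.mp h)]

theorem invFun_invFun (x : Y) : invFun (invFun x) = x := by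
  rcases x with _ | a
  · rw [invFun_none, invFun_empty]
  · rcases a.eq_empty_or_nonempty with rfl | h
    · rw [invFun_empty, invFun_none]
    · rw [invFun_some h, invFun_some (flip_nonempty h), flip_flip h]

/-- the inversion as a permutation -/
noncomputable def ι : Equiv.Perm Y := ⟨invFun, invFun, invFun_invFun, invFun_invFun⟩

theorem ι_none : ι none = some ∅ := rfl
theorem ι_empty : ι (some ∅) = none := invFun_empty
theorem ι_some {a : V} (h : a.Nonempty) : ι (some a) = some (flip a) := invFun_some h

theorem top_flip_sd {a b : V} (ha : a.Nonempty) (hb : b.Nonempty) (hab : a ≠ b) :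
    top (symmDiff (flip a) (flip b)) = top (symmDiff a b) - top a - top b := by
  rcases lt_trichotomy (top a) (top b) with h | h | h
  · rw [symmDiff_comm a b, top_sd_lt hb (below_of_lt h)]
    rw [top_sd_lt (flip_nonempty ha) (below_of_lt (by rw [top_flip ha, top_flip hb]; linarith))]
    rw [top_flip ha]; ring
  · unfold flip
    rw [← h, ← shift_sd, top_shift (sd_nonempty hab)]; ring
  · rw [top_sd_lt ha (below_of_lt h)]
    rw [symmDiff_comm,
      top_sd_lt (flip_nonempty hb) (below_of_lt (by rw [top_flip ha, top_flip hb]; linarith))]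
    rw [top_flip hb]; ring

theorem m_flip {a : V} (ha : a.Nonempty) : m (flip a) = m a - top a := by
  unfold m; rw [top_flip ha]
  rcases le_total (top a) 0 with h | h
  · rw [max_eq_left (by linarith), max_eq_right h]; ring
  · rw [max_eq_right (by linarith), max_eq_left h]; ring

theorem m_empty : m ∅ = 0 := by unfold m; rw [top_empty]; simp

theorem E_comm (x y : Y) : E x y = E y x := by
  rcases x with _ | a <;> rcases y with _ | b <;> simp only [E]
  rw [symmDiff_comm]; ring

theorem empty_sd (a : V) : symmDiff ∅ a = a := by ext x; simp [mem_symmDiff]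

theorem E_ι {x y : Y} (h : x ≠ y) : E (ι x) (ι y) = E x y := by
  have key : ∀ b : V, E (ι none) (ι (some b)) = E none (some b) := by
    intro b
    rcases b.eq_empty_or_nonempty with rfl | hb
    · rw [ι_none, ι_empty, E_comm]
    · rw [ι_none, ι_some hb]
      simp only [E]
      rw [empty_sd, top_flip hb, m_empty, m_flip hb]; ring
  have key2 : ∀ b : V, b.Nonempty → E (ι (some ∅)) (ι (some b)) = E (some ∅) (some b) := by
    intro b hb
    rw [ι_empty, ι_some hb]
    simp only [E]
    rw [empty_sd, m_empty, m_flip hb]; ring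
  rcases x with _ | a
  · rcases y with _ | b
    · exact absurd rfl h
    · exact key b
  · rcases y with _ | b
    · rw [E_comm, key a, E_comm]
    · have hab : a ≠ b := fun e => h (e ▸ rfl)
      rcases a.eq_empty_or_nonempty with rfl | ha
      · exact key2 b (nonempty_iff_ne_empty.mpr (Ne.symm hab))
      · rcases b.eq_empty_or_nonempty with rfl | hb
        · rw [E_comm, key2 a ha, E_comm]
        · rw [ι_some ha, ι_some hb]
          simp only [E]
          rw [top_flip_sd ha hb hab, m_flip ha, m_flip hb]; ring

theorem ι_mem : ι ∈ G := by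
  rw [mem_G]
  intro a b c d hd
  obtain ⟨hab, hac, had, hbc, hbd, hcd⟩ := hd
  unfold S
  rw [E_ι hab, E_ι hcd, E_ι hac, E_ι hbd]

/-! ### transitivity -/

/-- some element of `G` moves a given point to infinity -/
theorem to_inf (x : Y) : ∃ g ∈ G, g x = none := by
  rcases x with _ | a
  · exact ⟨1, G.one_mem, rfl⟩
  · refine ⟨ι * fixInf (trans a), G.mul_mem ι_mem (trans_mem a), ?_⟩
    rw [Equiv.Perm.mul_apply, fixInf_some, trans_apply, symmDiff_self]
    exact ι_empty

/-- two points can be moved to infinity and the empty set -/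
theorem to_two {x y : Y} (h : x ≠ y) : ∃ g ∈ G, g x = none ∧ g y = some ∅ := by
  obtain ⟨g, hg, hx⟩ := to_inf x
  have hy : g y ≠ none := fun e => h (g.injective (hx.trans e.symm))
  obtain ⟨b, hb⟩ := Option.ne_none_iff_exists'.mp hy
  refine ⟨fixInf (trans b) * g, G.mul_mem (trans_mem b) hg, ?_, ?_⟩
  · rw [Equiv.Perm.mul_apply, hx, fixInf_none]
  · rw [Equiv.Perm.mul_apply, hb, fixInf_some, trans_apply, symmDiff_self]; rfl

/-- Move `b` with top `q` to `{q}`; other points with different top are fixed. -/
theorem to_single (b : V) (hb : b.Nonempty) : ∃ g ∈ G, g none = none ∧ g (some ∅) = some ∅ ∧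
    g (some b) = some {top b} ∧ ∀ c : V, c.Nonempty → top c ≠ top b → g (some c) = some c := by
  have ht : ∀ x ∈ symmDiff b {top b}, x < top b :=
    sd_below hb (singleton_nonempty _) (top_singleton _).symm
  refine ⟨fixInf (ltrans (top b) _ ht), ltrans_mem _ _ ht, fixInf_none _, ?_, ?_, ?_⟩
  · rw [fixInf_some, ltrans_neg ht (by simp)]
  · rw [fixInf_some, ltrans_pos ht ⟨top_mem hb, fun x hx => le_top hx⟩]
    congr 1
    rw [← symmDiff_assoc, symmDiff_self]
    exact empty_sd _
  · intro c hc hne
    rw [fixInf_some, ltrans_neg ht]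
    rintro ⟨h1, h2⟩
    exact hne (top_eq h1 h2)

/-- the order automorphism `x ↦ (x - q) / u` above `q` and `(x - q) / w` below `q` -/
noncomputable def kink (q u w : ℚ) (hu : 0 < u) (hw : 0 < w) : ℚ ≃o ℚ :=
  StrictMono.orderIsoOfRightInverse (fun x => if q ≤ x then (x - q) / u else (x - q) / w)
    (by
      intro x y hxy
      dsimp only
      split_ifs with h1 h2 h2
      · gcongr
      · exact absurd (h1.trans hxy.le) h2
      · have : (x - q) / w < 0 := div_neg_of_neg_of_pos (by linarith [not_le.mp h1]) hw
        have : 0 ≤ (y - q) / u := div_nonneg (by linarith) hu.le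
        linarith
      · gcongr)
    (fun y => if 0 ≤ y then y * u + q else y * w + q)
    (by
      intro y
      dsimp only
      by_cases h : 0 ≤ y
      · rw [if_pos h, if_pos (by nlinarith)]; field_simp; ring
      · rw [if_neg h, if_neg (by push Not at h ⊢; nlinarith)]; field_simp; ring)

theorem kink_apply (q u w : ℚ) (hu : 0 < u) (hw : 0 < w) (x : ℚ) :
    kink q u w hu hw x = if q ≤ x then (x - q) / u else (x - q) / w := rfl

theorem reix_top (φ : ℚ ≃o ℚ) (b : V) (hb : b.Nonempty) :
    (reix φ b).Nonempty ∧ top (reix φ b) = φ (top b) := by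
  refine ⟨?_, top_reix φ hb⟩
  obtain ⟨x, hx⟩ := hb
  exact ⟨φ x, by rw [mem_reix]; simpa using hx⟩

/-- three-transitivity in normal form -/
theorem to_three {x y z : Y} (hxy : x ≠ y) (hxz : x ≠ z) (hyz : y ≠ z) :
    ∃ g ∈ G, g x = none ∧ g y = some ∅ ∧ g z = some {0} := by
  obtain ⟨g, hg, hx, hy⟩ := to_two hxy
  have hz : g z ≠ none := fun e => hxz (g.injective (hx.trans e.symm))
  obtain ⟨c, hc⟩ := Option.ne_none_iff_exists'.mp hz
  have hc0 : c.Nonempty := by
    rw [nonempty_iff_ne_empty]
    rintro rfl
    exact hyz (g.injective (hy.trans hc.symm))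
  obtain ⟨h, hh, h1, h2, h3, -⟩ := to_single c hc0
  let φ := kink (top c) 1 1 one_pos one_pos
  refine ⟨fixInf (reix φ) * (h * g), G.mul_mem (reix_mem φ) (G.mul_mem hh hg), ?_, ?_, ?_⟩
  · rw [Equiv.Perm.mul_apply, Equiv.Perm.mul_apply, hx, h1, fixInf_none]
  · rw [Equiv.Perm.mul_apply, Equiv.Perm.mul_apply, hy, h2, fixInf_some, reix_empty]
  · rw [Equiv.Perm.mul_apply, Equiv.Perm.mul_apply, hc, h3, fixInf_some]
    congr 1
    ext t
    rw [mem_reix, mem_singleton, mem_singleton, OrderIso.symm_apply_eq]
    rw [show φ (top c) = 0 by rw [show φ = kink (top c) 1 1 one_pos one_pos from rfl, kink_apply]; simp]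

/-- `G` is 3-transitive. -/
theorem G_trans : IsTransitive G 3 := by
  intro a b ha hb
  obtain ⟨g, hg, g1, g2, g3⟩ := to_three (x := a 0) (y := a 1) (z := a 2)
    (ha.ne (by decide)) (ha.ne (by decide)) (ha.ne (by decide))
  obtain ⟨h, hh, h1, h2, h3⟩ := to_three (x := b 0) (y := b 1) (z := b 2)
    (hb.ne (by decide)) (hb.ne (by decide)) (hb.ne (by decide))
  refine ⟨h⁻¹ * g, G.mul_mem (G.inv_mem hh) hg, ?_⟩
  intro i
  rw [Equiv.Perm.mul_apply, Equiv.Perm.inv_eq_iff_eq]
  fin_cases i
  · exact g1.trans h1.symm
  · exact g2.trans h2.symm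
  · exact g3.trans h3.symm

/-- `G` is not 4-transitive. -/
theorem G_not_trans : ¬ IsTransitive G 4 := by
  intro h
  have e1 : (∅ : V) ≠ {0} := by decide
  have e2 : (∅ : V) ≠ {1} := by decide
  have e3 : ({0} : V) ≠ {1} := by decide
  obtain ⟨g, hg, h1⟩ := h ![some ∅, some {0}, some {1}, none] ![some ∅, some {1}, some {0}, none]
    (by
      intro i j hij
      fin_cases i <;> fin_cases j <;> simp_all)
    (by
      intro i j hij
      fin_cases i <;> fin_cases j <;> simp_all)
  have h2 := hg (some ∅) (some {0}) (some {1}) none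
    ⟨by simp, by simp, by simp, by simp, by simp, by simp⟩
  have p0 : g (some ∅) = some ∅ := h1 0
  have p1 : g (some {0}) = some {1} := h1 1
  have p2 : g (some {1}) = some {0} := h1 2
  have p3 : g none = none := h1 3
  rw [p0, p1, p2, p3, S_inf4, S_inf4, empty_sd, empty_sd, top_singleton, top_singleton] at h2
  norm_num at h2

end Pool.Agent.H13.Boron
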