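import Pool.Agent.H13.Boron.Val

/-!
The split relation on the leaves and the maps preserving it.
-/

namespace Pool.Agent.H13.Boron

open Finset

/-- Leaves: finite sets of rationals and a point at infinity. -/
abbrev Y := Option V

/-- normalising term -/
noncomputable def m (a : V) : ℚ := max (top a) 0

/-- chordal ultrametric -/
noncomputable def E : Y → Y → ℚ
  | some a, some b => top (symmDiff a b) - m a - m b
  | some a, none => - m a
  | none, some b => - m b
  | none, none => 0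

/-- split relation -/
def S (a b c d : Y) : Prop := E a b + E c d < E a c + E b d

theorem S_fin (a b c d : V) : S (some a) (some b) (some c) (some d) ↔
    top (symmDiff a b) + top (symmDiff c d) < top (symmDiff a c) + top (symmDiff b d) := by
  simp only [S, E]; constructor <;> intro h <;> linarith

theorem S_inf1 (b c d : V) : S none (some b) (some c) (some d) ↔
    top (symmDiff c d) < top (symmDiff b d) := by
  simp only [S, E]; constructor <;> intro h <;> linarith

theorem S_inf2 (a c d : V) : S (some a) none (some c) (some d) ↔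
    top (symmDiff c d) < top (symmDiff a c) := by
  simp only [S, E]; constructor <;> intro h <;> linarith

theorem S_inf3 (a b d : V) : S (some a) (some b) none (some d) ↔
    top (symmDiff a b) < top (symmDiff b d) := by
  simp only [S, E]; constructor <;> intro h <;> linarith

theorem S_inf4 (a b c : V) : S (some a) (some b) (some c) none ↔
    top (symmDiff a b) < top (symmDiff a c) := by
  simp only [S, E]; constructor <;> intro h <;> linarith

/-- pairwise distinct -/
def D4 (a b c d : Y) : Prop := a ≠ b ∧ a ≠ c ∧ a ≠ d ∧ b ≠ c ∧ b ≠ d ∧ c ≠ d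

/-- The permutations preserving the split relation. -/
def G : Subgroup (Equiv.Perm Y) where
  carrier := {g | ∀ a b c d, D4 a b c d → (S (g a) (g b) (g c) (g d) ↔ S a b c d)}
  mul_mem' := by
    intro g h hg hh a b c d hd
    rw [← hh a b c d hd]
    refine hg _ _ _ _ ?_
    obtain ⟨h1, h2, h3, h4, h5, h6⟩ := hd
    exact ⟨h.injective.ne h1, h.injective.ne h2, h.injective.ne h3, h.injective.ne h4,
      h.injective.ne h5, h.injective.ne h6⟩
  one_mem' := by intro a b c d _; exact Iff.rfl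
  inv_mem' := by
    intro g hg a b c d hd
    have := hg (g⁻¹ a) (g⁻¹ b) (g⁻¹ c) (g⁻¹ d) (by
      obtain ⟨h1, h2, h3, h4, h5, h6⟩ := hd
      exact ⟨(g⁻¹).injective.ne h1, (g⁻¹).injective.ne h2, (g⁻¹).injective.ne h3,
        (g⁻¹).injective.ne h4, (g⁻¹).injective.ne h5, (g⁻¹).injective.ne h6⟩)
    simpa using this.symm

theorem mem_G {g : Equiv.Perm Y} :
    g ∈ G ↔ ∀ a b c d, D4 a b c d → (S (g a) (g b) (g c) (g d) ↔ S a b c d) := Iff.rfl

/-- A permutation of the finite points, fixing infinity. -/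
def fixInf (σ : Equiv.Perm V) : Equiv.Perm Y := σ.optionCongr

theorem fixInf_some (σ : Equiv.Perm V) (a : V) : fixInf σ (some a) = some (σ a) := rfl
theorem fixInf_none (σ : Equiv.Perm V) : fixInf σ none = none := rfl

/-- Sufficient condition for maps fixing infinity. -/
theorem fixInf_mem (σ : Equiv.Perm V)
    (h2 : ∀ a b c d : V, a ≠ b → a ≠ c → a ≠ d → b ≠ c → b ≠ d → c ≠ d →
      (top (symmDiff (σ a) (σ b)) + top (symmDiff (σ c) (σ d)) <
        top (symmDiff (σ a) (σ c)) + top (symmDiff (σ b) (σ d)) ↔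
      top (symmDiff a b) + top (symmDiff c d) < top (symmDiff a c) + top (symmDiff b d)))
    (h1 : ∀ a b c d : V, a ≠ b → c ≠ d →
      (top (symmDiff (σ a) (σ b)) < top (symmDiff (σ c) (σ d)) ↔
        top (symmDiff a b) < top (symmDiff c d))) : fixInf σ ∈ G := by
  rw [mem_G]
  intro a b c d hd
  obtain ⟨hab, hac, had, hbc, hbd, hcd⟩ := hd
  rcases a with _ | a
  · rcases b with _ | b
    · exact absurd rfl hab
    rcases c with _ | c
    · exact absurd rfl hac
    rcases d with _ | d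
    · exact absurd rfl had
    simp only [fixInf_some, fixInf_none, S_inf1]
    exact h1 _ _ _ _ (fun e => hcd (e ▸ rfl)) (fun e => hbd (e ▸ rfl))
  · rcases b with _ | b
    · rcases c with _ | c
      · exact absurd rfl hbc
      rcases d with _ | d
      · exact absurd rfl hbd
      simp only [fixInf_some, fixInf_none, S_inf2]
      exact h1 _ _ _ _ (fun e => hcd (e ▸ rfl)) (fun e => hac (e ▸ rfl))
    · rcases c with _ | c
      · rcases d with _ | d
        · exact absurd rfl hcd
        simp only [fixInf_some, fixInf_none, S_inf3]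
        exact h1 _ _ _ _ (fun e => hab (e ▸ rfl)) (fun e => hbd (e ▸ rfl))
      · rcases d with _ | d
        · simp only [fixInf_some, fixInf_none, S_inf4]
          exact h1 _ _ _ _ (fun e => hab (e ▸ rfl)) (fun e => hac (e ▸ rfl))
        · simp only [fixInf_some, S_fin]
          exact h2 _ _ _ _ (fun e => hab (e ▸ rfl)) (fun e => hac (e ▸ rfl))
            (fun e => had (e ▸ rfl)) (fun e => hbc (e ▸ rfl)) (fun e => hbd (e ▸ rfl))
            (fun e => hcd (e ▸ rfl))

/-- Isometries belong to `G`. -/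
theorem isometry_mem (σ : Equiv.Perm V)
    (h : ∀ a b : V, a ≠ b → top (symmDiff (σ a) (σ b)) = top (symmDiff a b)) : fixInf σ ∈ G := by
  apply fixInf_mem
  · intro a b c d hab hac had hbc hbd hcd
    rw [h a b hab, h c d hcd, h a c hac, h b d hbd]
  · intro a b c d hab hcd
    rw [h a b hab, h c d hcd]

/-- Translations. -/
def trans (t : V) : Equiv.Perm V where
  toFun a := symmDiff a t
  invFun a := symmDiff a t
  left_inv a := by simp
  right_inv a := by simp

theorem trans_apply (t a : V) : trans t a = symmDiff a t := rfl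

theorem trans_mem (t : V) : fixInf (trans t) ∈ G := by
  apply isometry_mem
  intro a b _
  have : symmDiff (symmDiff a t) (symmDiff b t) = symmDiff a b := by
    rw [symmDiff_assoc, symmDiff_comm b t, ← symmDiff_assoc t t b, symmDiff_self]
    simp
  rw [trans_apply, trans_apply, this]

/-- Translations on the sphere of level `q`. -/
noncomputable def ltrans (q : ℚ) (t : V) (ht : ∀ x ∈ t, x < q) : Equiv.Perm V where
  toFun a := if q ∈ a ∧ ∀ x ∈ a, x ≤ q then symmDiff a t else a
  invFun a := if q ∈ a ∧ ∀ x ∈ a, x ≤ q then symmDiff a t else a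
  left_inv a := by
    have key : (q ∈ a ∧ ∀ x ∈ a, x ≤ q) → (q ∈ symmDiff a t ∧ ∀ x ∈ symmDiff a t, x ≤ q) := by
      rintro ⟨h1, h2⟩
      refine ⟨?_, ?_⟩
      · rw [mem_symmDiff]; left; exact ⟨h1, fun h => lt_irrefl _ (ht _ h)⟩
      · intro x hx
        rw [mem_symmDiff] at hx
        rcases hx with ⟨hx, _⟩ | ⟨hx, _⟩
        · exact h2 x hx
        · exact (ht x hx).le
    by_cases h : q ∈ a ∧ ∀ x ∈ a, x ≤ q
    · simp only [if_pos h, if_pos (key h)]; simp
    · simp only [if_neg h]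
  right_inv a := by
    have key : (q ∈ a ∧ ∀ x ∈ a, x ≤ q) → (q ∈ symmDiff a t ∧ ∀ x ∈ symmDiff a t, x ≤ q) := by
      rintro ⟨h1, h2⟩
      refine ⟨?_, ?_⟩
      · rw [mem_symmDiff]; left; exact ⟨h1, fun h => lt_irrefl _ (ht _ h)⟩
      · intro x hx
        rw [mem_symmDiff] at hx
        rcases hx with ⟨hx, _⟩ | ⟨hx, _⟩
        · exact h2 x hx
        · exact (ht x hx).le
    by_cases h : q ∈ a ∧ ∀ x ∈ a, x ≤ q
    · simp only [if_pos h, if_pos (key h)]; simp
    · simp only [if_neg h]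

theorem ltrans_pos {q : ℚ} {t : V} (ht : ∀ x ∈ t, x < q) {a : V} (h : q ∈ a ∧ ∀ x ∈ a, x ≤ q) :
    ltrans q t ht a = symmDiff a t := if_pos h

theorem ltrans_neg {q : ℚ} {t : V} (ht : ∀ x ∈ t, x < q) {a : V}
    (h : ¬ (q ∈ a ∧ ∀ x ∈ a, x ≤ q)) : ltrans q t ht a = a := if_neg h

/-- mixed case of the next lemma -/
theorem ltrans_aux {q : ℚ} {t : V} (ht : ∀ x ∈ t, x < q) {a b : V}
    (ha : q ∈ a ∧ ∀ x ∈ a, x ≤ q) (hb : ¬ (q ∈ b ∧ ∀ x ∈ b, x ≤ q)) :
    top (symmDiff (symmDiff a t) b) = top (symmDiff a b) := by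
  have e : symmDiff (symmDiff a t) b = symmDiff (symmDiff a b) t := by
    rw [symmDiff_assoc, symmDiff_comm t b, ← symmDiff_assoc]
  rw [e]
  have h1 : (symmDiff a b).Nonempty := sd_nonempty (fun h => hb (h ▸ ha))
  apply top_sd_lt h1
  intro x hx
  refine lt_of_lt_of_le (ht x hx) ?_
  by_cases hq : q ∈ b
  · have : ∃ y ∈ b, q < y := by
      by_contra h2
      push Not at h2
      exact hb ⟨hq, h2⟩
    obtain ⟨y, hy, hqy⟩ := this
    refine le_trans hqy.le (le_top ?_)
    rw [mem_symmDiff]; right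
    exact ⟨hy, fun h => absurd (ha.2 y h) (not_le.mpr hqy)⟩
  · refine le_top ?_
    rw [mem_symmDiff]; left
    exact ⟨ha.1, hq⟩

theorem ltrans_mem (q : ℚ) (t : V) (ht : ∀ x ∈ t, x < q) : fixInf (ltrans q t ht) ∈ G := by
  apply isometry_mem
  intro a b _
  by_cases ha : q ∈ a ∧ ∀ x ∈ a, x ≤ q
  · by_cases hb : q ∈ b ∧ ∀ x ∈ b, x ≤ q
    · rw [ltrans_pos ht ha, ltrans_pos ht hb]
      have : symmDiff (symmDiff a t) (symmDiff b t) = symmDiff a b := by
        rw [symmDiff_assoc, symmDiff_comm b t, ← symmDiff_assoc t t b, symmDiff_self]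
        simp
      rw [this]
    · rw [ltrans_pos ht ha, ltrans_neg ht hb]
      exact ltrans_aux ht ha hb
  · by_cases hb : q ∈ b ∧ ∀ x ∈ b, x ≤ q
    · rw [ltrans_neg ht ha, ltrans_pos ht hb, symmDiff_comm, ltrans_aux ht hb ha, symmDiff_comm]
    · rw [ltrans_neg ht ha, ltrans_neg ht hb]

/-- Reindexing by an order automorphism. -/
def reix (φ : ℚ ≃o ℚ) : Equiv.Perm V := Equiv.finsetCongr φ.toEquiv

theorem mem_reix {φ : ℚ ≃o ℚ} {a : V} {x : ℚ} : x ∈ reix φ a ↔ φ.symm x ∈ a := by
  unfold reix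
  simp only [Equiv.finsetCongr_apply, mem_map, Equiv.coe_toEmbedding]
  constructor
  · rintro ⟨y, hy, rfl⟩
    simpa using hy
  · intro h
    exact ⟨_, h, by simp⟩

theorem reix_sd (φ : ℚ ≃o ℚ) (a b : V) :
    symmDiff (reix φ a) (reix φ b) = reix φ (symmDiff a b) := by
  ext x; simp only [mem_symmDiff, mem_reix]

theorem top_reix (φ : ℚ ≃o ℚ) {a : V} (h : a.Nonempty) : top (reix φ a) = φ (top a) := by
  apply top_eq
  · rw [mem_reix]; simpa using top_mem h
  · intro x hx
    rw [mem_reix] at hx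
    have := le_top hx
    calc x = φ (φ.symm x) := by simp
      _ ≤ φ (top a) := φ.monotone this

theorem reix_empty (φ : ℚ ≃o ℚ) : reix φ ∅ = ∅ := by ext x; simp [mem_reix]

/-- order version of the sum inequality -/
theorem ultra_key (f : ℚ → ℚ) (hf : StrictMono f) {p1 p2 q1 q2 r1 r2 : ℚ}
    (h1 : (p1 = q1 ∧ r2 < p1) ∨ (p1 = r2 ∧ q1 < p1) ∨ (q1 = r2 ∧ p1 < q1))
    (h2 : (p1 = r1 ∧ q2 < p1) ∨ (p1 = q2 ∧ r1 < p1) ∨ (r1 = q2 ∧ p1 < r1))
    (h3 : (q1 = r1 ∧ p2 < q1) ∨ (q1 = p2 ∧ r1 < q1) ∨ (r1 = p2 ∧ q1 < r1))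
    (h4 : (r2 = q2 ∧ p2 < r2) ∨ (r2 = p2 ∧ q2 < r2) ∨ (q2 = p2 ∧ r2 < q2)) :
    (f p1 + f p2 < f q1 + f q2 ↔ p1 + p2 < q1 + q2) := by
  rcases h1 with ⟨a1, b1⟩ | ⟨a1, b1⟩ | ⟨a1, b1⟩ <;> rcases h2 with ⟨a2, b2⟩ | ⟨a2, b2⟩ | ⟨a2, b2⟩ <;>
  rcases h3 with ⟨a3, b3⟩ | ⟨a3, b3⟩ | ⟨a3, b3⟩ <;> rcases h4 with ⟨a4, b4⟩ | ⟨a4, b4⟩ | ⟨a4, b4⟩ <;>
  (have c1 := hf b1; have c2 := hf b2; have c3 := hf b3; have c4 := hf b4;
   have d1 := congrArg f a1; have d2 := congrArg f a2; have d3 := congrArg f a3;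
   have d4 := congrArg f a4;
   first
   | (exfalso; linarith)
   | (constructor <;> intro h <;> linarith))

theorem reix_mem (φ : ℚ ≃o ℚ) : fixInf (reix φ) ∈ G := by
  apply fixInf_mem
  · intro a b c d hab hac had hbc hbd hcd
    simp only [reix_sd]
    rw [top_reix φ (sd_nonempty hab), top_reix φ (sd_nonempty hcd), top_reix φ (sd_nonempty hac),
      top_reix φ (sd_nonempty hbd)]
    have i1 := isosceles hab hbc hac
    have i2 := isosceles hab hbd had
    have i3 := isosceles hac hcd had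
    have i4 := isosceles hbc hcd hbd
    refine ultra_key φ φ.strictMono (r1 := top (symmDiff a d)) (r2 := top (symmDiff b c)) ?_ ?_ ?_ ?_
    · rcases i1 with h | h | h
      · exact Or.inl h
      · exact Or.inr (Or.inl h)
      · exact Or.inr (Or.inr h)
    · rcases i2 with h | h | h
      · exact Or.inl h
      · exact Or.inr (Or.inl h)
      · exact Or.inr (Or.inr h)
    · rcases i3 with h | h | h
      · exact Or.inl h
      · exact Or.inr (Or.inl h)
      · exact Or.inr (Or.inr h)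
    · rcases i4 with h | h | h
      · exact Or.inl h
      · exact Or.inr (Or.inl h)
      · exact Or.inr (Or.inr h)
  · intro a b c d hab hcd
    simp only [reix_sd]
    rw [top_reix φ (sd_nonempty hab), top_reix φ (sd_nonempty hcd)]
    exact φ.strictMono.lt_iff_lt

end Pool.Agent.H13.Boron
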