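import Pool.Agent.H13.Boron.Defs

/-!
Finite sets of rationals with symmetric difference; the largest element of the difference is an
ultrametric with two branches at each level.
-/

namespace Pool.Agent.H13.Boron

open Finset

/-- Points at finite distance. -/
abbrev V := Finset ℚ

/-- Largest element, `0` for the empty set. -/
noncomputable def top (s : V) : ℚ := if h : s.Nonempty then s.max' h else 0

theorem top_empty : top ∅ = 0 := by simp [top]

theorem top_mem {s : V} (h : s.Nonempty) : top s ∈ s := by
  unfold top; rw [dif_pos h]; exact s.max'_mem h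

theorem le_top {s : V} {x : ℚ} (hx : x ∈ s) : x ≤ top s := by
  unfold top; rw [dif_pos ⟨x, hx⟩]; exact s.le_max' x hx

theorem top_eq {s : V} {q : ℚ} (hq : q ∈ s) (h : ∀ x ∈ s, x ≤ q) : top s = q :=
  le_antisymm (h _ (top_mem ⟨q, hq⟩)) (le_top hq)

theorem top_singleton (q : ℚ) : top {q} = q := top_eq (by simp) (by simp)

theorem lt_of_top {s : V} {q : ℚ} (hq : q ∉ s) (h : ∀ x ∈ s, x ≤ q) : ∀ x ∈ s, x < q := by
  intro x hx
  exact lt_of_le_of_ne (h x hx) (fun e => hq (e ▸ hx))

/-- top of a symmetric difference, larger first. -/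
theorem top_sd_lt {a b : V} (ha : a.Nonempty) (h : ∀ x ∈ b, x < top a) :
    top (symmDiff a b) = top a := by
  apply top_eq
  · rw [mem_symmDiff]; left; exact ⟨top_mem ha, fun hb => lt_irrefl _ (h _ hb)⟩
  · intro x hx
    rw [mem_symmDiff] at hx
    rcases hx with ⟨hx, _⟩ | ⟨hx, _⟩
    · exact le_top hx
    · exact (h x hx).le

theorem sd_nonempty {a b : V} (h : a ≠ b) : (symmDiff a b).Nonempty := by
  rw [nonempty_iff_ne_empty]
  intro h1
  exact h (symmDiff_eq_bot.mp h1)

/-- The symmetric difference of two sets with the same top lies strictly below it. -/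
theorem sd_below {a b : V} (ha : a.Nonempty) (hb : b.Nonempty) (h : top a = top b) :
    ∀ x ∈ symmDiff a b, x < top a := by
  intro x hx
  rw [mem_symmDiff] at hx
  rcases hx with ⟨hx, hn⟩ | ⟨hx, hn⟩
  · refine lt_of_le_of_ne (le_top hx) ?_
    rintro rfl
    exact hn (h ▸ top_mem hb)
  · refine lt_of_le_of_ne (h ▸ le_top hx) ?_
    rintro rfl
    exact hn (top_mem ha)

theorem top_sd_lt_of_eq {a b : V} (ha : a.Nonempty) (hb : b.Nonempty) (h : top a = top b)
    (hne : a ≠ b) : top (symmDiff a b) < top a :=
  sd_below ha hb h _ (top_mem (sd_nonempty hne))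

theorem below_of_lt {b : V} {q : ℚ} (h : top b < q) : ∀ x ∈ b, x < q :=
  fun _ hx => lt_of_le_of_lt (le_top hx) h

/-- Isosceles property. -/
theorem isosceles {a b c : V} (hab : a ≠ b) (hbc : b ≠ c) (hac : a ≠ c) :
    (top (symmDiff a b) = top (symmDiff a c) ∧ top (symmDiff b c) < top (symmDiff a b)) ∨
    (top (symmDiff a b) = top (symmDiff b c) ∧ top (symmDiff a c) < top (symmDiff a b)) ∨
    (top (symmDiff a c) = top (symmDiff b c) ∧ top (symmDiff a b) < top (symmDiff a c)) := by
  have e : symmDiff (symmDiff a b) (symmDiff a c) = symmDiff b c := by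
    rw [symmDiff_comm a b, symmDiff_assoc, ← symmDiff_assoc a a c, symmDiff_self]
    simp
  have e2 : symmDiff (symmDiff a b) (symmDiff b c) = symmDiff a c := by
    rw [symmDiff_assoc, ← symmDiff_assoc b b c, symmDiff_self]
    simp
  rcases lt_trichotomy (top (symmDiff a b)) (top (symmDiff a c)) with h | h | h
  · right; right
    refine ⟨?_, h⟩
    have := top_sd_lt (a := symmDiff a c) (b := symmDiff a b) (sd_nonempty hac) (below_of_lt h)
    rw [symmDiff_comm, e] at this
    exact this.symm
  · left
    refine ⟨h, ?_⟩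
    have := top_sd_lt_of_eq (sd_nonempty hab) (sd_nonempty hac) h (by
      intro h1
      have h2 := e
      rw [h1, symmDiff_self] at h2
      exact hbc (symmDiff_eq_bot.mp h2.symm))
    rw [e] at this
    exact this
  · right; left
    have := top_sd_lt (a := symmDiff a b) (b := symmDiff a c) (sd_nonempty hab) (below_of_lt h)
    rw [e] at this
    exact ⟨this.symm, h⟩

/-- Shift all elements. -/
def shift (c : ℚ) (a : V) : V := a.map ⟨fun x => x + c, add_left_injective c⟩

theorem mem_shift {c x : ℚ} {a : V} : x ∈ shift c a ↔ x - c ∈ a := by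
  unfold shift
  simp only [mem_map, Function.Embedding.coeFn_mk]
  constructor
  · rintro ⟨y, hy, rfl⟩; simpa using hy
  · intro h; exact ⟨x - c, h, by ring⟩

theorem shift_zero (a : V) : shift 0 a = a := by ext x; simp [mem_shift]

theorem shift_shift (c d : ℚ) (a : V) : shift c (shift d a) = shift (c + d) a := by
  ext x; simp only [mem_shift]; rw [show x - c - d = x - (c + d) by ring]

theorem shift_nonempty {c : ℚ} {a : V} (h : a.Nonempty) : (shift c a).Nonempty :=
  Finset.map_nonempty.mpr h

theorem shift_sd (c : ℚ) (a b : V) : shift c (symmDiff a b) = symmDiff (shift c a) (shift c b) := by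
  ext x; simp only [mem_shift, mem_symmDiff]

theorem top_shift {c : ℚ} {a : V} (h : a.Nonempty) : top (shift c a) = top a + c := by
  apply top_eq
  · rw [mem_shift]; simpa using top_mem h
  · intro x hx
    rw [mem_shift] at hx
    have := le_top hx
    linarith

end Pool.Agent.H13.Boron
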